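import Mathlib

/-!
# HP7: common definitions (places of a number field, local properties)
-/

namespace HP7

open IsDedekindDomain NumberField Matrix

/-- The places of a number field: the finite ones (nonzero primes) and the infinite ones. -/
abbrev Pl (K : Type) [Field K] [NumberField K] : Type :=
  HeightOneSpectrum (𝓞 K) ⊕ InfinitePlace K

/-- A property of field extensions of `K` (given by the embedding). -/
abbrev LocProp (K : Type) [Field K] : Type 1 :=
  ∀ (F : Type) [Field F], (K →+* F) → Prop

/-- The property `P` holds over the completion of `K` at the place `w`. -/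
def At {K : Type} [Field K] [NumberField K] (P : LocProp K) : Pl K → Prop
  | Sum.inl v => P (v.adicCompletion K) (algebraMap K (v.adicCompletion K))
  | Sum.inr v => P v.Completion (algebraMap K v.Completion)

/-- `P` is inherited by larger fields. -/
def Mono {K : Type} [Field K] (P : LocProp K) : Prop :=
  ∀ (F F' : Type) [Field F] [Field F'] (i : K →+* F) (j : F →+* F'), P F i → P F' (j.comp i)

/-- Restriction of a property of extensions of `K` to extensions of `K'`, along `φ : K → K'`. -/
def Pull {K K' : Type} [Field K] [Field K'] (φ : K →+* K') (P : LocProp K) : LocProp K' :=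
  fun F _ i => P F (i.comp φ)

/-- `b` is of the form `x^2 - a y^2`. -/
def NormOf {K : Type} [Field K] (a b : K) : LocProp K :=
  fun F _ i => ∃ x y : F, x ^ 2 - i a * y ^ 2 = i b

/-- `a` is a square. -/
def SqOf {K : Type} [Field K] (a : K) : LocProp K :=
  fun F _ i => ∃ x : F, x ^ 2 = i a

/-- The bilinear form of a matrix. -/
def bil {F : Type} [Field F] {n : ℕ} (S : Matrix (Fin n) (Fin n) F) (x y : Fin n → F) : F :=
  x ⬝ᵥ (S *ᵥ y)

/-- The form `S` has a totally isotropic subspace of dimension `m`. -/
def HasIso {F : Type} [Field F] {n : ℕ} (S : Matrix (Fin n) (Fin n) F) (m : ℕ) : Prop :=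
  ∃ T : Fin m → (Fin n → F), LinearIndependent F T ∧ ∀ i j, bil S (T i) (T j) = 0

/-- The form `S` has a totally isotropic subspace of dimension `m` over the extension. -/
def Iso {K : Type} [Field K] {n : ℕ} (S : Matrix (Fin n) (Fin n) K) (m : ℕ) : LocProp K :=
  fun _ _ i => HasIso (S.map i) m

/-- The pair of forms `A, B` has a common nontrivial zero over the extension. -/
def CommonZero {K : Type} [Field K] {n : ℕ} (A B : Matrix (Fin n) (Fin n) K) : LocProp K :=
  fun F _ i => ∃ x : Fin n → F, x ≠ 0 ∧ bil (A.map i) x x = 0 ∧ bil (B.map i) x x = 0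

/-! ## Exports of the block CFT -/

/-- Hasse norm theorem for quadratic extensions. -/
def St_HNT : Prop := ∀ (K : Type) [Field K] [NumberField K] (a b : K), a ≠ 0 → b ≠ 0 →
  (∀ w : Pl K, At (NormOf a b) w) → NormOf a b K (RingHom.id K)

/-- Hilbert reciprocity: the number of places where `b` is not of the form `x^2 - a y^2` is finite
and even. -/
def St_Recip : Prop := ∀ (K : Type) [Field K] [NumberField K] (a b : K), a ≠ 0 → b ≠ 0 →
  {w : Pl K | ¬ At (NormOf a b) w}.Finite ∧ Even {w : Pl K | ¬ At (NormOf a b) w}.ncard

/-- Existence of an element with prescribed symbols with `e` at the places of `S` (`r b_w` is a local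
norm at all `w ∈ S`) and which is a unit outside `S`, for all large `S`. -/
def St_Exist : Prop := ∀ (K : Type) [Field K] [NumberField K] (e : K), e ≠ 0 →
  ∃ S₁ : Finset (Pl K), ∀ S : Finset (Pl K), S₁ ⊆ S →
    ∀ b : Pl K → K, (∀ w ∈ S, b w ≠ 0) →
      Even {w : Pl K | w ∈ S ∧ ¬ At (NormOf e (b w)) w}.ncard →
      ∃ r : K, r ≠ 0 ∧
        (∀ v : HeightOneSpectrum (𝓞 K), Sum.inl v ∉ S → v.valuation K r = 1) ∧
        (∀ w ∈ S, At (NormOf e (r * b w)) w)

/-- An element which is a square at all but finitely many places is a square. -/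
def St_GlobalSquare : Prop := ∀ (K : Type) [Field K] [NumberField K] (a : K),
  {w : Pl K | ¬ At (SqOf a) w}.Finite → SqOf a K (RingHom.id K)

/-! ## Export of the block HM -/

/-- Hasse-Minkowski, with Witt index: a nondegenerate form in at least `2m+1` variables which has an
`m`-dimensional totally isotropic subspace over all completions has one over `K`. -/
def St_HM : Prop := ∀ (K : Type) [Field K] [NumberField K] (n m : ℕ)
  (S : Matrix (Fin n) (Fin n) K), S.IsSymm → S.det ≠ 0 → 2 * m + 1 ≤ n →
  (∀ w : Pl K, At (Iso S m) w) → HasIso S m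

/-! ## Base change of completions -/

/-- Every completion of an extension `K'` of `K` contains a completion of `K`. -/
def St_BaseChange : Prop := ∀ (K K' : Type) [Field K] [NumberField K] [Field K'] [NumberField K']
  (φ : K →+* K') (P : LocProp K), Mono P → (∀ w : Pl K, At P w) → ∀ w' : Pl K', At (Pull φ P) w'

end HP7
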